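import Pool.Agent.MP_077ac3_nt.H18.Defs

set_option autoImplicit false

/-!
Successive minima, Evertse's lemma and Minkowski's second theorem (module N).
-/

namespace Pool.Agent.MP_077ac3_nt.H38

open Matrix MeasureTheory Finset

/-! ### Minkowski's first theorem for parallelepipeds -/

theorem mink_box (n : ℕ) (A : Matrix (Fin n) (Fin n) ℝ) (hA : A.det ≠ 0) (r : Fin n → ℝ)
    (hr : ∀ i, 0 < r i) (h : |A.det| < ∏ i, r i) :
    ∃ y : Fin n → ℤ, y ≠ 0 ∧ ∀ i, |∑ j, A i j * (y j : ℝ)| < r i := by
  classical
  set b := Pi.basisFun ℝ (Fin n) with hb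
  have fund := ZSpan.isAddFundamentalDomain' b (volume : Measure (Fin n → ℝ))
  set s : Set (Fin n → ℝ) := (Matrix.toLin' A) ⁻¹' (Set.univ.pi fun i => Set.Ioo (-r i) (r i))
    with hs
  have hdet : LinearMap.det (Matrix.toLin' A) = A.det := LinearMap.det_toLin' A
  have hsymm : ∀ x ∈ s, -x ∈ s := by
    intro x hx
    simp only [hs, Set.mem_preimage, Set.mem_pi, Set.mem_univ, forall_true_left, Set.mem_Ioo,
      map_neg, Pi.neg_apply] at hx ⊢
    intro i
    constructor <;> linarith [(hx i).1, (hx i).2]
  have hconv : Convex ℝ s :=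
    (convex_pi fun i _ => convex_Ioo (-r i) (r i)).linear_preimage _
  have hpos : 0 < |A.det| := abs_pos.mpr hA
  have hvol : volume (ZSpan.fundamentalDomain b) * 2 ^ Module.finrank ℝ (Fin n → ℝ) < volume s := by
    rw [hs, Measure.addHaar_preimage_linearMap _ (by rwa [hdet]), hdet, Real.volume_pi_Ioo,
      ZSpan.volume_fundamentalDomain]
    have h1 : (Matrix.of b).det = 1 := by
      have : Matrix.of b = (1 : Matrix (Fin n) (Fin n) ℝ) := by
        ext i j
        simp [hb, Matrix.one_apply, Pi.single_apply, eq_comm]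
      rw [this, det_one]
    rw [h1, abs_one, ENNReal.ofReal_one, one_mul, Module.finrank_fin_fun,
      ← ENNReal.ofReal_prod_of_nonneg (fun i _ => by linarith [hr i]),
      ← ENNReal.ofReal_mul (abs_nonneg _)]
    have h2 : (2 : ENNReal) ^ n = ENNReal.ofReal (2 ^ n) := by
      rw [ENNReal.ofReal_pow (by norm_num)]; simp
    rw [h2]
    have h3 : ∏ i, (r i - -r i) = 2 ^ n * ∏ i, r i := by
      rw [show (2 : ℝ) ^ n = ∏ _i : Fin n, (2 : ℝ) by simp, ← Finset.prod_mul_distrib]
      exact Finset.prod_congr rfl fun i _ => by ring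
    have h4 : (2 : ℝ) ^ n < |A.det⁻¹| * ∏ i, (r i - -r i) := by
      rw [h3, abs_inv, inv_mul_eq_div, lt_div_iff₀ hpos]
      exact mul_lt_mul_of_pos_left h (by positivity)
    exact (ENNReal.ofReal_lt_ofReal_iff (lt_trans (by positivity) h4)).mpr h4
  have : Countable (Submodule.span ℤ (Set.range b)).toAddSubgroup := by
    change Countable (Submodule.span ℤ (Set.range b))
    infer_instance
  obtain ⟨x, hx0, hx⟩ :=
    exists_ne_zero_mem_lattice_of_measure_mul_two_pow_lt_measure fund hsymm hconv hvol
  have hint : ∀ i, ∃ z : ℤ, (z : ℝ) = (x : Fin n → ℝ) i := by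
    intro i
    obtain ⟨z, hz⟩ := (b.mem_span_iff_repr_mem ℤ _).mp x.2 i
    exact ⟨z, by simpa [hb] using hz⟩
  choose y hy using hint
  refine ⟨y, ?_, ?_⟩
  · intro h0
    apply hx0
    ext i
    simp [← hy i, h0]
  · intro i
    simp only [hs, Set.mem_preimage, Set.mem_pi, Set.mem_univ, forall_true_left, Set.mem_Ioo,
      Matrix.toLin'_apply] at hx
    have := hx i
    simp only [Matrix.mulVec, dotProduct, ← hy] at this
    exact abs_lt.mpr this

/-! ### Successive minima -/

/-- The sup norm of `A y`. -/
noncomputable def nrm {n : ℕ} (A : Matrix (Fin n) (Fin n) ℝ) (y : Fin n → ℤ) : ℝ :=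
  ‖fun i => ∑ j, A i j * (y j : ℝ)‖

theorem le_nrm {n : ℕ} (A : Matrix (Fin n) (Fin n) ℝ) (y : Fin n → ℤ) (i : Fin n) :
    |∑ j, A i j * (y j : ℝ)| ≤ nrm A y :=
  norm_le_pi_norm (fun i => ∑ j, A i j * (y j : ℝ)) i

theorem finite_ball {n : ℕ} (A : Matrix (Fin n) (Fin n) ℝ) (hA : A.det ≠ 0) (R : ℝ) :
    {y : Fin n → ℤ | nrm A y ≤ R}.Finite := by
  classical
  obtain ⟨M, hM⟩ := exists_nat_ge ((∑ i, ∑ j, |A⁻¹ i j|) * R)
  refine (Set.finite_Icc (fun _ : Fin n => -(M : ℤ)) (fun _ => (M : ℤ))).subset ?_
  intro y hy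
  have hy' : nrm A y ≤ R := hy
  have key : ∀ i, |(y i : ℝ)| ≤ M := by
    intro i
    have hR : 0 ≤ R := le_trans (norm_nonneg _) hy'
    have h1 : (y i : ℝ) = ∑ k, A⁻¹ i k * ∑ j, A k j * (y j : ℝ) := by
      have h2 : A⁻¹ *ᵥ (A *ᵥ fun j => (y j : ℝ)) = fun j => (y j : ℝ) := by
        rw [Matrix.mulVec_mulVec, Matrix.nonsing_inv_mul _ (isUnit_iff_ne_zero.mpr hA),
          Matrix.one_mulVec]
      have h3 := congrFun h2 i
      simpa [Matrix.mulVec, dotProduct] using h3.symm
    rw [h1]
    calc |∑ k, A⁻¹ i k * ∑ j, A k j * (y j : ℝ)| ≤ ∑ k, |A⁻¹ i k * ∑ j, A k j * (y j : ℝ)| :=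
          Finset.abs_sum_le_sum_abs _ _
      _ ≤ ∑ k, |A⁻¹ i k| * R := by
          refine Finset.sum_le_sum fun k _ => ?_
          rw [abs_mul]
          exact mul_le_mul_of_nonneg_left ((le_nrm A y k).trans hy') (abs_nonneg _)
      _ = (∑ k, |A⁻¹ i k|) * R := by rw [Finset.sum_mul]
      _ ≤ (∑ i, ∑ j, |A⁻¹ i j|) * R := by
          refine mul_le_mul_of_nonneg_right ?_ hR
          exact Finset.single_le_sum (f := fun i => ∑ j, |A⁻¹ i j|)
            (fun i _ => Finset.sum_nonneg fun j _ => abs_nonneg _) (Finset.mem_univ i)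
      _ ≤ M := hM
  constructor
  · intro i
    have := (abs_le.mp (key i)).1
    exact_mod_cast this
  · intro i
    have := (abs_le.mp (key i)).2
    exact_mod_cast this

/-- Coordinatewise cast to the rationals. -/
def cq {n : ℕ} (y : Fin n → ℤ) : Fin n → ℚ := fun i => (y i : ℚ)

theorem exists_min_outside {n : ℕ} (A : Matrix (Fin n) (Fin n) ℝ) (hA : A.det ≠ 0)
    (W : Submodule ℚ (Fin n → ℚ)) :
    ∃ x : Fin n → ℤ, W ≠ ⊤ → cq x ∉ W ∧ ∀ y, cq y ∉ W → nrm A x ≤ nrm A y := by
  classical
  by_cases hW : W = ⊤
  · exact ⟨0, fun h => absurd hW h⟩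
  have h1 : ∃ y0 : Fin n → ℤ, cq y0 ∉ W := by
    by_contra hcon
    push Not at hcon
    apply hW
    rw [eq_top_iff, ← (Pi.basisFun ℚ (Fin n)).span_eq, Submodule.span_le]
    rintro _ ⟨i, rfl⟩
    have h2 := hcon (Pi.single i 1)
    have h3 : cq (Pi.single i 1) = Pi.basisFun ℚ (Fin n) i := by
      ext j
      simp [cq, Pi.single_apply]
    rw [h3] at h2
    exact h2
  obtain ⟨y0, hy0⟩ := h1
  have hfin : {y : Fin n → ℤ | nrm A y ≤ nrm A y0 ∧ cq y ∉ W}.Finite :=
    (finite_ball A hA (nrm A y0)).subset fun y hy => hy.1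
  obtain ⟨x, hx, hmin⟩ := Set.exists_min_image _ (nrm A) hfin ⟨y0, le_rfl, hy0⟩
  refine ⟨x, fun _ => ⟨hx.2, fun y hy => ?_⟩⟩
  by_cases hle : nrm A y ≤ nrm A y0
  · exact hmin y ⟨hle, hy⟩
  · exact hx.1.trans (le_of_lt (not_le.mp hle))

theorem succ_minima (n : ℕ) (A : Matrix (Fin n) (Fin n) ℝ) (hA : A.det ≠ 0) :
    ∃ (X : Matrix (Fin n) (Fin n) ℤ) (μ : Fin n → ℝ), X.det ≠ 0 ∧ (∀ i, 0 < μ i) ∧ Monotone μ ∧
      (∀ i j, |∑ k, A i k * (X k j : ℝ)| ≤ μ j) ∧
      ∀ (y : Fin n → ℤ) (k : Fin n), (∀ i, |∑ j, A i j * (y j : ℝ)| < μ k) →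
        ∃ t : Fin n → ℚ, (∀ j, k ≤ j → t j = 0) ∧ ∀ i, (y i : ℚ) = ∑ j, (X i j : ℚ) * t j := by
  classical
  choose pick hpick using exists_min_outside A hA
  obtain ⟨W, W0, Ws⟩ : ∃ W : ℕ → Submodule ℚ (Fin n → ℚ), W 0 = ⊥ ∧
      ∀ k, W (k + 1) = W k ⊔ Submodule.span ℚ {cq (pick (W k))} :=
    ⟨fun k => Nat.rec (motive := fun _ => Submodule ℚ (Fin n → ℚ)) ⊥
      (fun _ U => U ⊔ Submodule.span ℚ {cq (pick U)}) k, rfl, fun _ => rfl⟩
  have Wmono : Monotone W := monotone_nat_of_le_succ fun k => by rw [Ws]; exact le_sup_left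
  have Wrank : ∀ k : ℕ, Module.finrank ℚ ↥(W k) ≤ k := by
    intro k
    induction k with
    | zero => rw [W0]; simp
    | succ k ih =>
      rw [Ws]
      refine (Submodule.finrank_add_le_finrank_add_finrank _ _).trans ?_
      have : Module.finrank ℚ (Submodule.span ℚ {cq (pick (W k))}) ≤ 1 := by
        simpa using finrank_span_le_card (R := ℚ) ({cq (pick (W k))} : Set (Fin n → ℚ))
      omega
  have Wne : ∀ k, k < n → W k ≠ ⊤ := by
    intro k hk h
    have h1 := Wrank k
    rw [h, finrank_top, Module.finrank_fin_fun] at h1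
    omega
  let x : ℕ → Fin n → ℤ := fun k => pick (W k)
  have hx1 : ∀ k, k < n → cq (x k) ∉ W k := fun k hk => (hpick _ (Wne k hk)).1
  have hx2 : ∀ k, k < n → ∀ y, cq y ∉ W k → nrm A (x k) ≤ nrm A y :=
    fun k hk => (hpick _ (Wne k hk)).2
  have hxm : ∀ k, cq (x k) ∈ W (k + 1) := by
    intro k
    rw [Ws]
    exact Submodule.mem_sup_right (Submodule.mem_span_singleton_self _)
  have hrep : ∀ k, k ≤ n → ∀ v ∈ W k, ∃ t : Fin n → ℚ, (∀ j : Fin n, k ≤ j.val → t j = 0) ∧
      ∀ i, v i = ∑ j : Fin n, (x j i : ℚ) * t j := by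
    intro k
    induction k with
    | zero =>
      intro _ v hv
      rw [W0, Submodule.mem_bot] at hv
      exact ⟨0, fun _ _ => rfl, fun i => by simp [hv]⟩
    | succ k ih =>
      intro hk v hv
      rw [Ws, Submodule.mem_sup] at hv
      obtain ⟨u, hu, w, hw, rfl⟩ := hv
      obtain ⟨a, rfl⟩ := Submodule.mem_span_singleton.mp hw
      obtain ⟨t, ht0, ht⟩ := ih (by omega) u hu
      refine ⟨t + Pi.single ⟨k, by omega⟩ a, ?_, ?_⟩
      · intro j hj
        have hne : j ≠ ⟨k, by omega⟩ := by
          intro h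
          rw [h] at hj
          simp at hj
        simp [ht0 j (by omega), Pi.single_eq_of_ne hne]
      · intro i
        simp only [Pi.add_apply, mul_add, Finset.sum_add_distrib, ht i, Pi.smul_apply, smul_eq_mul]
        congr 1
        rw [Finset.sum_eq_single (⟨k, by omega⟩ : Fin n)]
        · simp [cq, x, mul_comm]
        · intro j _ hj
          simp [Pi.single_eq_of_ne hj]
        · simp
  refine ⟨Matrix.of fun i j => x j i, fun k => nrm A (x k), ?_, ?_, ?_, ?_, ?_⟩
  · intro hdet
    have hdet' : (Matrix.of fun (i j : Fin n) => (x j i : ℚ)).det = 0 := by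
      have h1 := (Int.castRingHom ℚ).map_det (Matrix.of fun (i j : Fin n) => x j i)
      rw [hdet] at h1
      simp only [map_zero] at h1
      rw [h1]
      rfl
    obtain ⟨t, ht0, ht⟩ := Matrix.exists_mulVec_eq_zero_iff.mpr hdet'
    have hne : (Finset.univ.filter fun j => t j ≠ 0).Nonempty := by
      by_contra hcon
      apply ht0
      ext j
      by_contra hj
      exact hcon ⟨j, by simpa using hj⟩
    obtain ⟨k, hk, hkmax⟩ := Finset.exists_max_image _ (fun j : Fin n => j) hne
    have hk0 : t k ≠ 0 := by simpa using hk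
    apply hx1 k k.2
    have hsum : ∑ j : Fin n, t j • cq (x j) = 0 := by
      ext i
      have := congrFun ht i
      simpa [Matrix.mulVec, dotProduct, cq, Finset.sum_apply, mul_comm] using this
    rw [← Finset.add_sum_erase _ _ (Finset.mem_univ k)] at hsum
    have hmem : ∑ j ∈ Finset.univ.erase k, t j • cq (x j) ∈ W k := by
      refine Submodule.sum_mem _ fun j hj => ?_
      by_cases htj : t j = 0
      · simp [htj]
      · have h1 : j ≤ k := hkmax j (by simpa using htj)
        have h2 : j ≠ k := (Finset.mem_erase.mp hj).1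
        have h3 : j.val + 1 ≤ k.val := by
          have : j < k := lt_of_le_of_ne h1 h2
          exact this
        exact Submodule.smul_mem _ _ (Wmono h3 (hxm j))
    have h4 : t k • cq (x k) ∈ W k := by
      rw [eq_neg_of_add_eq_zero_left hsum]
      exact Submodule.neg_mem _ hmem
    exact (Submodule.smul_mem_iff _ hk0).mp h4
  · intro k
    refine lt_of_le_of_ne (norm_nonneg _) fun h0 => ?_
    have h1 : (fun i => ∑ j, A i j * (x k j : ℝ)) = 0 := norm_eq_zero.mp h0.symm
    have h2 : A *ᵥ (fun j => (x k j : ℝ)) = 0 := h1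
    have h3 := Matrix.eq_zero_of_mulVec_eq_zero hA h2
    apply hx1 k k.2
    have h4 : cq (x k) = 0 := by
      ext i
      have := congrFun h3 i
      simp only [Pi.zero_apply, Int.cast_eq_zero] at this
      simp [cq, this]
    rw [h4]
    exact Submodule.zero_mem _
  · intro k l hkl
    exact hx2 k k.2 _ fun h => hx1 l l.2 (Wmono hkl h)
  · intro i j
    exact le_nrm A (x j) i
  · intro y k hy
    have hmem : cq y ∈ W k := by
      by_contra hcon
      have h1 := hx2 k k.2 y hcon
      have h2 : nrm A y < nrm A (x k) := by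
        have hpos : 0 < nrm A (x k) := lt_of_le_of_lt (abs_nonneg _) (hy k)
        exact (pi_norm_lt_iff hpos).mpr hy
      linarith
    obtain ⟨t, ht0, ht⟩ := hrep k (le_of_lt k.2) _ hmem
    exact ⟨t, fun j hj => ht0 j hj, fun i => ht i⟩

/-! ### Evertse's lemma -/

theorem abs_sub_round_le (x : ℝ) : |x - round x| ≤ 1 := (abs_sub_round x).trans (by norm_num)

theorem evertse (n : ℕ) : ∃ K : ℝ, 1 ≤ K ∧ ∀ (B : Matrix (Fin n) (Fin n) ℝ) (μ : Fin n → ℝ),
    B.det ≠ 0 → (∀ i, 0 < μ i) → Monotone μ → (∀ i j, |B i j| ≤ μ j) →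
    ∃ (U : Matrix (Fin n) (Fin n) ℤ) (π : Fin n → Fin n), Function.Injective π ∧
      (∀ i j, j < i → U i j = 0) ∧ (∀ i, U i i = 1) ∧
      (∀ i j, |∑ l, B (π i) l * (U l j : ℝ)| ≤ K * min (μ i) (μ j)) ∧
      ∀ (k : Fin n) (t : Fin n → ℝ) (r : ℝ), (∀ j, k < j → t j = 0) →
        (∀ j, j ≤ k → |∑ l, B (π j) l * t l| ≤ r) → ∀ i, |∑ l, B i l * t l| ≤ K * r := by
  classical
  induction n with
  | zero => exact ⟨1, le_rfl, fun B μ _ _ _ _ => ⟨0, id, Function.injective_id, fun i => i.elim0,
      fun i => i.elim0, fun i => i.elim0, fun k => k.elim0⟩⟩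
  | succ m ih =>
    obtain ⟨K, hK, ih⟩ := ih
    have hm0 : (0 : ℝ) ≤ m := Nat.cast_nonneg m
    refine ⟨((m : ℝ) + 1) ^ 2 * K + m + 1, by nlinarith [sq_nonneg ((m : ℝ) + 1)], ?_⟩
    set K' : ℝ := ((m : ℝ) + 1) ^ 2 * K + m + 1 with hK'
    have hK1 : K ≤ K' := by nlinarith [mul_nonneg hm0 hm0]
    have hK2 : m * K ≤ K' := by nlinarith [mul_nonneg hm0 hm0]
    have hK3 : 1 + m + m * (m * K) ≤ K' := by nlinarith [mul_nonneg hm0 hm0]
    have hK4 : 1 ≤ K' := hK.trans hK1
    intro B μ hB hμ hmono hle
    -- the relation between the rows on the first `m` columns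
    set a : Fin (m + 1) → ℝ := fun r => B.adjugate (Fin.last m) r with ha
    have hrel : ∀ j, ∑ r, a r * B r j = if Fin.last m = j then B.det else 0 := by
      intro j
      have h1 := congrFun (congrFun (Matrix.adjugate_mul B) (Fin.last m)) j
      simpa [Matrix.mul_apply, Matrix.one_apply] using h1
    obtain ⟨s, -, hs⟩ := Finset.exists_max_image Finset.univ (fun r => |a r|) Finset.univ_nonempty
    have hs0 : a s ≠ 0 := by
      intro h0
      have h1 : ∀ r, a r = 0 := by
        intro r
        have := hs r (Finset.mem_univ r)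
        rw [h0, abs_zero] at this
        exact abs_nonpos_iff.mp this
      have h2 := hrel (Fin.last m)
      simp [h1] at h2
      exact hB h2.symm
    set B' : Matrix (Fin m) (Fin m) ℝ := B.submatrix s.succAbove Fin.castSucc with hB'
    have hdet' : B'.det ≠ 0 := by
      intro h0
      apply hs0
      rw [ha]
      simp only
      rw [Matrix.adjugate_fin_succ_eq_det_submatrix, Fin.succAbove_last, ← hB', h0, mul_zero]
    -- row `s` is a combination of the other rows on the first `m` columns
    have hcomb : ∀ (t : Fin m → ℝ) (r : ℝ), (∀ i, |∑ l, B' i l * t l| ≤ r) →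
        |∑ l, B s (Fin.castSucc l) * t l| ≤ m * r := by
      intro t r hr
      have h1 : a s * ∑ l, B s (Fin.castSucc l) * t l =
          -∑ i, a (s.succAbove i) * ∑ l, B' i l * t l := by
        rw [eq_neg_iff_add_eq_zero]
        have h2 : ∀ l : Fin m, a s * B s (Fin.castSucc l) +
            ∑ i, a (s.succAbove i) * B' i l = 0 := by
          intro l
          have h3 := hrel (Fin.castSucc l)
          rw [if_neg (Fin.castSucc_ne_last l).symm, Fin.sum_univ_succAbove _ s] at h3
          exact h3
        calc a s * ∑ l, B s (Fin.castSucc l) * t l + ∑ i, a (s.succAbove i) * ∑ l, B' i l * t l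
            = ∑ l, (a s * B s (Fin.castSucc l) + ∑ i, a (s.succAbove i) * B' i l) * t l := by
              simp only [Finset.mul_sum, add_mul, Finset.sum_add_distrib, Finset.sum_mul]
              rw [Finset.sum_comm (f := fun i l => a (s.succAbove i) * (B' i l * t l))]
              simp only [mul_assoc]
          _ = 0 := by simp [h2]
      have hpos : 0 < |a s| := abs_pos.mpr hs0
      have h4 : |a s| * |∑ l, B s (Fin.castSucc l) * t l| ≤ |a s| * (m * r) := by
        rw [← abs_mul, h1, abs_neg]
        calc |∑ i, a (s.succAbove i) * ∑ l, B' i l * t l|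
            ≤ ∑ i, |a (s.succAbove i) * ∑ l, B' i l * t l| := Finset.abs_sum_le_sum_abs _ _
          _ ≤ ∑ _i : Fin m, |a s| * r := by
              refine Finset.sum_le_sum fun i _ => ?_
              rw [abs_mul]
              exact mul_le_mul (hs _ (Finset.mem_univ _)) (hr i) (abs_nonneg _) (abs_nonneg _)
          _ = |a s| * (m * r) := by simp; ring
      exact le_of_mul_le_mul_left h4 hpos
    obtain ⟨U, π, hπ, hU0, hU1, hUb, hUs⟩ := ih B' (fun i => μ (Fin.castSucc i)) hdet'
      (fun i => hμ _) (fun i j hij => hmono (Fin.castSucc_le_castSucc_iff.mpr hij))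
      (fun i j => hle _ _)
    have hπs : Function.Surjective π := Finite.injective_iff_surjective.mp hπ
    have hUdet : U.det = 1 := by
      rw [Matrix.det_of_isUpperTriangular (fun i j hij => hU0 i j hij)]
      simp [hU1]
    set C : Matrix (Fin m) (Fin m) ℝ := B' * U.map (Int.castRingHom ℝ) with hC
    have hCdet : C.det ≠ 0 := by
      rw [hC, Matrix.det_mul, ← RingHom.mapMatrix_apply, ← RingHom.map_det, hUdet]
      simpa using hdet'
    have hCe : ∀ i j, C i j = ∑ l, B' i l * (U l j : ℝ) := fun i j => by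
      simp [hC, Matrix.mul_apply]
    set η : Fin m → ℝ := C⁻¹ *ᵥ fun i => B (s.succAbove i) (Fin.last m) with hη
    have hηe : ∀ i, ∑ j, C i j * η j = B (s.succAbove i) (Fin.last m) := by
      intro i
      have h1 : C *ᵥ η = fun i => B (s.succAbove i) (Fin.last m) := by
        rw [hη, Matrix.mulVec_mulVec, Matrix.mul_nonsing_inv _ (isUnit_iff_ne_zero.mpr hCdet),
          Matrix.one_mulVec]
      exact congrFun h1 i
    have hlast : ∀ i, μ i ≤ μ (Fin.last m) := fun i => hmono (Fin.le_last i)
    -- bounds for the entries of `C`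
    have hCb : ∀ i j, |C i j| ≤ K * μ (Fin.castSucc j) := by
      intro i j
      obtain ⟨i', rfl⟩ := hπs i
      rw [hCe]
      exact (hUb i' j).trans (mul_le_mul_of_nonneg_left (min_le_right _ _) (by linarith))
    have hCb' : ∀ i j, |C (π i) j| ≤ K * μ (Fin.castSucc i) := by
      intro i j
      rw [hCe]
      exact (hUb i j).trans (mul_le_mul_of_nonneg_left (min_le_left _ _) (by linarith))
    let U' : Matrix (Fin (m + 1)) (Fin (m + 1)) ℤ := fun i j =>
      Fin.lastCases (Fin.lastCases 1 (fun i => -∑ l, U i l * round (η l)) i)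
        (fun j => Fin.lastCases 0 (fun i => U i j) i) j
    let π' : Fin (m + 1) → Fin (m + 1) := fun i =>
      Fin.lastCases s (fun i => s.succAbove (π i)) i
    have e1 : ∀ r j, ∑ l, B r l * (U' l (Fin.castSucc j) : ℝ) =
        ∑ l, B r (Fin.castSucc l) * (U l j : ℝ) := by
      intro r j
      simp [U', Fin.sum_univ_castSucc]
    have e2 : ∀ r, ∑ l, B r l * (U' l (Fin.last m) : ℝ) = B r (Fin.last m) -
        ∑ l, B r (Fin.castSucc l) * ∑ j, (U l j : ℝ) * (round (η j) : ℝ) := by
      intro r
      simp [U', Fin.sum_univ_castSucc]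
      ring
    have e3 : ∀ (i : Fin m) (z : Fin m → ℝ), ∑ l, B' i l * ∑ j, (U l j : ℝ) * z j =
        ∑ j, C i j * z j := by
      intro i z
      simp only [hCe, Finset.mul_sum, Finset.sum_mul]
      rw [Finset.sum_comm]
      simp only [mul_assoc]
    have e4 : ∀ (i : Fin m) (R : ℝ), (∀ j, |C i j| ≤ R) →
        |∑ j, C i j * (η j - round (η j))| ≤ m * R := by
      intro i R hR
      calc |∑ j, C i j * (η j - round (η j))| ≤ ∑ j, |C i j * (η j - round (η j))| :=
            Finset.abs_sum_le_sum_abs _ _
        _ ≤ ∑ _j : Fin m, R := by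
            refine Finset.sum_le_sum fun j _ => ?_
            rw [abs_mul]
            calc |C i j| * |η j - round (η j)| ≤ R * 1 :=
                  mul_le_mul (hR j) (abs_sub_round_le _) (abs_nonneg _)
                    ((abs_nonneg _).trans (hR j))
              _ = R := mul_one R
        _ = m * R := by simp
    refine ⟨U', π', ?_, ?_, ?_, ?_, ?_⟩
    · intro i j hij
      induction i using Fin.lastCases with
      | last =>
        induction j using Fin.lastCases with
        | last => rfl
        | cast j =>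
          simp only [π', Fin.lastCases_last, Fin.lastCases_castSucc] at hij
          exact absurd hij.symm (Fin.succAbove_ne s _)
      | cast i =>
        induction j using Fin.lastCases with
        | last =>
          simp only [π', Fin.lastCases_last, Fin.lastCases_castSucc] at hij
          exact absurd hij (Fin.succAbove_ne s _)
        | cast j =>
          simp only [π', Fin.lastCases_castSucc] at hij
          rw [hπ (Fin.succAbove_right_injective hij)]
    · intro i j hij
      induction j using Fin.lastCases with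
      | last => exact absurd hij (not_lt.mpr (Fin.le_last i))
      | cast j =>
        induction i using Fin.lastCases with
        | last => simp [U']
        | cast i =>
          simp only [U', Fin.lastCases_castSucc]
          exact hU0 i j (Fin.castSucc_lt_castSucc_iff.mp hij)
    · intro i
      induction i using Fin.lastCases with
      | last => simp [U']
      | cast i => simp [U', hU1]
    · intro i j
      induction j using Fin.lastCases with
      | cast j =>
        rw [e1]
        induction i using Fin.lastCases with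
        | last =>
          simp only [π', Fin.lastCases_last]
          rw [min_eq_right (hlast _)]
          refine (hcomb (fun l => (U l j : ℝ)) (K * μ (Fin.castSucc j))
            (fun i => by rw [← hCe]; exact hCb i j)).trans ?_
          rw [← mul_assoc]
          exact mul_le_mul_of_nonneg_right hK2 (hμ _).le
        | cast i =>
          simp only [π', Fin.lastCases_castSucc]
          refine (hUb i j).trans ?_
          exact mul_le_mul_of_nonneg_right hK1 (le_min (hμ _).le (hμ _).le)
      | last =>
        rw [e2, min_eq_left (hlast _)]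
        induction i using Fin.lastCases with
        | last =>
          simp only [π', Fin.lastCases_last]
          have h1 : B s (Fin.last m) - ∑ l, B s (Fin.castSucc l) * ∑ j, (U l j : ℝ) *
              (round (η j) : ℝ) = B s (Fin.last m) -
                ∑ l, B s (Fin.castSucc l) * ∑ j, (U l j : ℝ) * η j +
                ∑ l, B s (Fin.castSucc l) * ∑ j, (U l j : ℝ) * (η j - round (η j)) := by
            simp only [mul_sub, Finset.sum_sub_distrib]
            ring
          have h2 := hcomb (fun l => ∑ j, (U l j : ℝ) * η j) (μ (Fin.last m))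
            (fun i => by rw [e3, hηe]; exact hle _ _)
          have h3 := hcomb (fun l => ∑ j, (U l j : ℝ) * (η j - round (η j)))
            (m * (K * μ (Fin.last m))) (fun i => by
              rw [e3]
              exact e4 i _ fun j => (hCb i j).trans
                (mul_le_mul_of_nonneg_left (hlast _) (by linarith)))
          have h4 := hle s (Fin.last m)
          rw [h1]
          refine (abs_add_le _ _).trans ?_
          refine (add_le_add (abs_sub _ _) le_rfl).trans ?_
          have h5 := mul_le_mul_of_nonneg_right hK3 (hμ (Fin.last m)).le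
          nlinarith
        | cast i =>
          simp only [π', Fin.lastCases_castSucc]
          have h1 : B (s.succAbove (π i)) (Fin.last m) -
              ∑ l, B (s.succAbove (π i)) (Fin.castSucc l) * ∑ j, (U l j : ℝ) * (round (η j) : ℝ) =
                ∑ j, C (π i) j * (η j - round (η j)) := by
            rw [← hηe]
            have h2 := e3 (π i) fun j => (round (η j) : ℝ)
            simp only [hB', Matrix.submatrix_apply] at h2
            rw [h2]
            simp only [mul_sub, Finset.sum_sub_distrib]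
          rw [h1]
          refine (e4 (π i) _ (hCb' i)).trans ?_
          rw [← mul_assoc]
          exact mul_le_mul_of_nonneg_right hK2 (hμ _).le
    · intro k t r ht hr i
      have hr0 : 0 ≤ r := (abs_nonneg _).trans (hr k le_rfl)
      induction k using Fin.lastCases with
      | last =>
        have h1 : |∑ l, B i l * t l| ≤ r := by
          rcases Fin.eq_self_or_eq_succAbove s i with h | ⟨i', h⟩
          · have h2 := hr (Fin.last m) le_rfl
            simp only [π', Fin.lastCases_last] at h2
            rw [h]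
            exact h2
          · obtain ⟨i'', rfl⟩ := hπs i'
            have h2 := hr (Fin.castSucc i'') (Fin.le_last _)
            simp only [π', Fin.lastCases_castSucc] at h2
            rw [h]
            exact h2
        nlinarith
      | cast k =>
        have hl : t (Fin.last m) = 0 := ht _ (Fin.castSucc_lt_last k)
        have h0 : ∀ p, ∑ l, B p l * t l = ∑ l, B p (Fin.castSucc l) * t (Fin.castSucc l) := by
          intro p
          rw [Fin.sum_univ_castSucc, hl, mul_zero, add_zero]
        have h1 := hUs k (fun l => t (Fin.castSucc l)) r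
          (fun j hj => ht _ (Fin.castSucc_lt_castSucc_iff.mpr hj)) (fun j hj => by
            have h2 := hr (Fin.castSucc j) (Fin.castSucc_le_castSucc_iff.mpr hj)
            simp only [π', Fin.lastCases_castSucc] at h2
            rw [h0] at h2
            exact h2)
        rw [h0]
        rcases Fin.eq_self_or_eq_succAbove s i with h | ⟨i', h⟩
        · rw [h]
          refine (hcomb _ _ h1).trans ?_
          rw [← mul_assoc]
          exact mul_le_mul_of_nonneg_right hK2 hr0
        · rw [h]
          exact (h1 i').trans (mul_le_mul_of_nonneg_right hK1 hr0)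

/-! ### The module -/

theorem geom : H18.GeomStmt := by
  classical
  intro n
  obtain ⟨K, hK, hE⟩ := evertse n
  have hK0 : 0 < K := by linarith
  have hKn : 0 ≤ (2 * K) ^ n := by positivity
  refine ⟨K + (2 * K) ^ n, by linarith, fun A hA => ?_⟩
  obtain ⟨X, μ, hX, hμ, hmono, hle, hspan⟩ := succ_minima n A hA
  set B : Matrix (Fin n) (Fin n) ℝ := A * X.map (Int.castRingHom ℝ) with hB
  have hBe : ∀ i j, B i j = ∑ k, A i k * (X k j : ℝ) := fun i j => by
    simp [hB, Matrix.mul_apply]
  have hBdet : B.det ≠ 0 := by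
    rw [hB, Matrix.det_mul, ← RingHom.mapMatrix_apply, ← RingHom.map_det]
    simpa using ⟨hA, hX⟩
  obtain ⟨U, π, hπ, hU0, hU1, hUb, hUs⟩ := hE B μ hBdet hμ hmono (fun i j => by
    rw [hBe]; exact hle i j)
  have hUdet : U.det = 1 := by
    rw [Matrix.det_of_isUpperTriangular (fun i j hij => hU0 i j hij)]
    simp [hU1]
  let e : Equiv.Perm (Fin n) := Equiv.ofBijective π (Finite.injective_iff_bijective.mp hπ)
  have he : ∀ i, e i = π i := fun i => rfl
  refine ⟨X * U, e, μ, ?_, hμ, hmono, ?_, ?_, ?_⟩
  · rw [Matrix.det_mul, hUdet, mul_one]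
    exact hX
  · intro i j
    have h1 : ∑ k, A (e i) k * ((X * U) k j : ℝ) = ∑ l, B (π i) l * (U l j : ℝ) := by
      simp only [he, hBe, Matrix.mul_apply, Int.cast_sum, Int.cast_mul, Finset.mul_sum,
        Finset.sum_mul]
      rw [Finset.sum_comm]
      simp only [mul_assoc]
    rw [h1]
    exact (hUb i j).trans (mul_le_mul_of_nonneg_right (by linarith) (le_min (hμ _).le (hμ _).le))
  · have key : ∏ i, μ (e.symm i) / (2 * K) ≤ |A.det| := by
      by_contra hcon
      obtain ⟨y, hy0, hy⟩ := mink_box n A hA (fun i => μ (e.symm i) / (2 * K))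
        (fun i => div_pos (hμ _) (by positivity)) (not_le.mp hcon)
      set Xq : Matrix (Fin n) (Fin n) ℚ := X.map (Int.castRingHom ℚ) with hXq
      have hXqdet : Xq.det ≠ 0 := by
        rw [hXq, ← RingHom.mapMatrix_apply, ← RingHom.map_det]
        simpa using hX
      set t : Fin n → ℚ := Xq⁻¹ *ᵥ cq y with ht
      have hty : Xq *ᵥ t = cq y := by
        rw [ht, Matrix.mulVec_mulVec, Matrix.mul_nonsing_inv _ (isUnit_iff_ne_zero.mpr hXqdet),
          Matrix.one_mulVec]
      have hne : (Finset.univ.filter fun j => t j ≠ 0).Nonempty := by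
        by_contra hc
        apply hy0
        have h0 : t = 0 := by
          ext j
          by_contra hj
          exact hc ⟨j, by simpa using hj⟩
        rw [h0, Matrix.mulVec_zero] at hty
        ext i
        have := congrFun hty i
        simp only [Pi.zero_apply, cq] at this ⊢
        exact_mod_cast this.symm
      obtain ⟨k, hk, hkmax⟩ := Finset.exists_max_image _ (fun j : Fin n => j) hne
      have hk0 : t k ≠ 0 := by simpa using hk
      have hyr : ∀ i, (y i : ℝ) = ∑ l, (X i l : ℝ) * (t l : ℝ) := by
        intro i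
        have h1 := congrFun hty i
        simp only [Matrix.mulVec, dotProduct, cq, hXq, Matrix.map_apply, eq_intCast] at h1
        have h2 := congrArg (fun q : ℚ => (q : ℝ)) h1
        simpa using h2.symm
      have hAB : ∀ i, ∑ l, B i l * (t l : ℝ) = ∑ j, A i j * (y j : ℝ) := by
        intro i
        simp only [hBe, hyr, Finset.mul_sum, Finset.sum_mul]
        rw [Finset.sum_comm]
        simp only [mul_assoc]
      have h3 := hUs k (fun l => (t l : ℝ)) (μ k / (2 * K)) (fun j hj => by
          have : t j = 0 := by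
            by_contra hc
            exact absurd (hkmax j (by simpa using hc)) (not_le.mpr hj)
          simp [this]) (fun j hj => by
          rw [hAB]
          have h4 := hy (π j)
          rw [← he, Equiv.symm_apply_apply] at h4
          exact h4.le.trans (div_le_div_of_nonneg_right (hmono hj) (by positivity)))
      obtain ⟨t', ht0, ht'⟩ := hspan y k (fun i => by
        rw [← hAB]
        refine (h3 i).trans_lt ?_
        have : K * (μ k / (2 * K)) = μ k / 2 := by field_simp
        rw [this]
        linarith [hμ k])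
      have h5 : Xq *ᵥ (t - t') = 0 := by
        rw [Matrix.mulVec_sub, hty]
        ext i
        simp [Matrix.mulVec, dotProduct, cq, hXq, ht' i]
      have h6 := congrFun (Matrix.eq_zero_of_mulVec_eq_zero hXqdet h5) k
      simp only [Pi.sub_apply, Pi.zero_apply, ht0 k le_rfl, sub_zero] at h6
      exact hk0 h6
    rw [Finset.prod_div_distrib, Equiv.prod_comp e.symm μ, Finset.prod_const, Finset.card_univ,
      Fintype.card_fin, div_le_iff₀ (by positivity)] at key
    have h7 := abs_nonneg A.det
    nlinarith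
  · intro y k hy
    obtain ⟨t, ht0, ht⟩ := hspan y k hy
    set Uq : Matrix (Fin n) (Fin n) ℚ := U.map (Int.castRingHom ℚ) with hUq
    have hUqdet : IsUnit Uq.det := by
      rw [hUq, ← RingHom.mapMatrix_apply, ← RingHom.map_det, hUdet]
      simp
    have htri : Uq.BlockTriangular id := fun i j hij => by
      simp [hUq, hU0 i j hij]
    have hinv := Uq.invertibleOfIsUnitDet hUqdet
    have htri' : Uq⁻¹.BlockTriangular id := Matrix.blockTriangular_inv_of_blockTriangular htri
    refine ⟨Uq⁻¹ *ᵥ t, fun j hj => ?_, fun i => ?_⟩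
    · simp only [Matrix.mulVec, dotProduct]
      refine Finset.sum_eq_zero fun l _ => ?_
      by_cases hl : l < j
      · rw [htri' hl, zero_mul]
      · rw [ht0 l (hj.trans (not_lt.mp hl)), mul_zero]
    · have h1 : Uq *ᵥ (Uq⁻¹ *ᵥ t) = t := by
        rw [Matrix.mulVec_mulVec, Matrix.mul_nonsing_inv _ hUqdet, Matrix.one_mulVec]
      rw [ht i]
      set z := Uq⁻¹ *ᵥ t
      rw [← h1]
      simp only [Matrix.mulVec, dotProduct, hUq, Matrix.map_apply, eq_intCast, Matrix.mul_apply,
        Int.cast_sum, Int.cast_mul, Finset.mul_sum, Finset.sum_mul]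
      rw [Finset.sum_comm]
      simp only [mul_assoc]

end Pool.Agent.MP_077ac3_nt.H38
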